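import Pool.Agent.H554R2.Rnd.Final

/-!
# Nondeterminism cannot be replaced by randomness in time `k n`

For every `k` we give functions of `n` Boolean variables which are disjunctions of a constant number
of functions computed by read-once branching programs with `O(n)` nodes, with a fixed order of the
variables (hence they are accepted by nondeterministic programs which guess a constant number of
bits and then read the input once), while randomised branching programs with two-sided error `1 / 3`
and at most `k n` queries need `2 ^ (n / D)` nodes: in time `k n` they need space `n / D`.

The functions are given by random quadratic forms in blocks, the blocks coming from a constant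
number of random partitions of the variables.  The lower bound combines the partition of the inputs
of a branching program of length `k n` into rectangles (Ajtai; Beame, Saks, Sun, Vee) with bounds for
all the characters of the sequence of the forms on all large rectangles.

The lemmas were proved together with helper19, helper77, helper79, helper129, helper140, helper227,
helper233, helper237, helper259, helper338, helper406, helper495, helper532, helper642, helper693,
helper737, helper819, helper847, helper880, helper903 (this project), helper403, helper415 and
helper439 (its model for deterministic programs).
-/

set_option autoImplicit false

namespace Pool.Agent.Results.MP_b573ec_lc.NondetNotRandomised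

open Pool.Agent.H554R2.Sem Pool.Agent.H554R2.Coin

/-- For every `k` there is a constant `D` such that for all `n ≥ D` there are `m ≤ D` functions
`q j` of `n` Boolean variables with the following properties.

* Each `q j` is computed by a deterministic program with at most `D n` nodes, which on all inputs
  queries the same variables in the same order, each of them at most once.
* Let `f` be the disjunction of the functions `q j`.  For every finite family of deterministic
  programs `P ω` with fewer than `2 ^ (n / D)` nodes there is an input `x` on which less than two
  thirds of the programs output `f x` after at most `k n` queries. -/
theorem result (k : ℕ) : ∃ D : ℕ, 0 < D ∧ ∀ n ≥ D, ∃ (m : ℕ) (q : Fin m → Pt n → Bool), m ≤ D ∧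
    (∀ j, ∃ (U : BP (Fin n) Bool) (l : List (Fin n)), Fintype.card U.State ≤ D * n ∧ l.Nodup ∧
      ∀ x : Pt n, U.Comp x l (q j x)) ∧
    ∀ (Ω : Type) [Fintype Ω] [Nonempty Ω] (P : Ω → BP (Fin n) Bool),
      (∀ ω, Fintype.card (P ω).State < 2 ^ (n / D)) →
      ∃ x, 3 * Nat.card {ω // ∃ l, (P ω).Comp x l (decide (∃ j, q j x = true)) ∧
        l.length ≤ k * n} < 2 * Nat.card Ω :=
  Pool.Agent.H554R2.Rnd.rnd_final k

end Pool.Agent.Results.MP_b573ec_lc.NondetNotRandomised
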