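import Pool.Agent.H611R3.Lists

/-!
# Randomized circuits with one-sided error and few NOT gates

A randomized circuit has `N` input bits `x` and `g` random bits `z`, which are uniformly
distributed, and output `f z x`. It has one-sided error for a function `F` if it never accepts when
`F x = 0`. Circuits here consist of AND and OR gates of fan-in two and of arbitrary further gates,
of arbitrary fan-in, with any number of outputs and computing arbitrary functions (NOT gates, for
instance). `Helped s K f` says that for all `z` the function `f z` is computed by at most `s` AND
and OR gates from constants, the bits `x` and the wires of one of finitely many circuits `C i`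
which read only `x` and which have at most `s` AND gates, OR gates and wires into the further
gates; the further gates are few: the sum over all `i` of `∏ (a + 1) - 1`, the product ranging over
the further gates of `C i`, `a` being the fan-in, is less than `K`. How `f z` depends on `z` is
arbitrary. For instance, `K = 1` if every `f z` has a monotone circuit with at most `s` gates, and
`K = 2 ^ t' * (2 ^ t - 1) + 1` if there are `t` NOT gates, which may be fed by gates that depend on
`x` and on `t'` of the random bits, if all other gates are monotone in `x`.

There is an NP-complete language `L` such that for all `r`, `K` and `N`, for some word `h` of length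
at most `201 r ^ 8`: the function of `x` which tells whether `h x` is in `L` is monotone, and every
such randomized circuit with `s < 2 ^ (r - 1)`, `40000 r ^ 16 K ≤ N` and one-sided error for it
accepts some `x` with `h x` in `L` with probability at most `2 ^ (- 13 ⌊N / (40000 r ^ 16 K)⌋)`.

So for circuits of polynomial size the success probability is at most
`2 ^ (- N / (K polylog N))`. If `RP = NP` then the functions above have circuits of polynomial size
with success probability at least `1 / 2` with `K = N + 1` (`⌈log (N + 1)⌉` NOT gates).

The language: nonempty lists of graphs on `v` vertices, all of which have a clique with `k`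
vertices (given as `1 ^ v 0 1 ^ k 0` followed by adjacency matrices).

The proof: the input is cut into `K` segments; if the bits entering the further gates can be
changed in every one of the segments within the positive instances, then there is a chain of inputs
along which they change `K` times, which is impossible; otherwise there is a family of monotone
circuits for one segment with the same properties (`Transfer.lean`). For families of monotone
circuits and every `z`, the fraction of accepted `m`-tuples of transversal `k`-cliques is at most
`q ^ (-m)`, by Razborov's method of approximations.
-/

namespace Pool.Agent.Results.MP_b573ec_lc.OneSidedNegations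

open Pool.Agent.H611R2 Pool.Agent.H611R3 Pool.Agent.NPC

theorem result : ∃ L : Set (List Bool), InNP L ∧ NPHard L ∧ ∀ N r : ℕ, 2 ≤ r →
    ∃ h : List Bool, h.length ≤ 201 * r ^ 8 ∧
      (∀ x y : Fin N → Bool, x ≤ y → h ++ List.ofFn x ∈ L → h ++ List.ofFn y ∈ L) ∧
      ∀ (s K g : ℕ) (f : (Fin g → Bool) → (Fin N → Bool) → Bool),
        2 * s < 2 ^ r → 40000 * r ^ 16 * K ≤ N → Helped s K f →
        (∀ x : Fin N → Bool, h ++ List.ofFn x ∉ L → ∀ z, f z x = false) →
        ∃ x : Fin N → Bool, h ++ List.ofFn x ∈ L ∧
          (Finset.univ.filter (fun z : Fin g → Bool => f z x = true)).card *
            2 ^ (13 * (N / (40000 * r ^ 16 * K))) ≤ 2 ^ g := by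
  refine ⟨LA.ListAll, LA.inNP_listAll, LA.npHard_listAll, fun N r hr => ?_⟩
  refine ⟨hdr (200 * r ^ 8) (r ^ 2), hdr_length hr, fun x y hxy hx => ?_, ?_⟩
  · rw [hdrA_mem] at hx ⊢
    exact allHave_mono hxy hx
  · intro s K g f hs hN hf hF
    exact rp_neg hr hs hN f hf hF

end Pool.Agent.Results.MP_b573ec_lc.OneSidedNegations
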