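import Pool.Agent.H564R3.RD.Main

/-!
Randomised pure dynamic programs for the travelling salesman problem.
-/

set_option autoImplicit false

namespace Pool.Agent.Results.MP_b573ec_lc.RandomTSP

open Pool.Agent.H564R3.PW (Instr)
open Pool.Agent.H564R3.RD (RandomTSP random_tsp)

/-- **Randomness does not help pure dynamic programs for the travelling salesman problem.** -/
theorem result (n : ℕ) (hn : 2 ≤ n) (ρ : Type) [DecidableEq ρ] (Λ : Type) [Fintype Λ] (e : ℝ)
    (q : Λ → ℝ)
    (p : Λ → List (Instr (Tropical (WithTop ℝ)) (Fin (n + 2) × Fin (n + 2)) ρ)) (o : ρ)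
    (h : RandomTSP e q p o) (T : ℕ) (hT : ∀ l, (p l).length ≤ T) :
    (1 - 2 * e) * 2 ^ (n + 1) ≤ ((n + 1) * (n + 2) * T : ℝ) :=
  random_tsp e q p o h T hT hn

end Pool.Agent.Results.MP_b573ec_lc.RandomTSP
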