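import Mathlib
import Pool.Agent.H592R3.AccDefs
import Pool.Agent.H592R3.Gap
import Pool.Agent.H592R3.Check

/-!
The success probability of randomized small-depth circuits for satisfiability: guessing an
assignment is optimal up to a factor `2 ^ (ε n)` times the number of gates.
-/

open SmallDepth DomAC0 H592R3

theorem Pool.Agent.Results.MP_b573ec_lc.SmallDepthSuccess.result :
    (∀ ε : ℝ, 0 < ε → ∃ C : ℝ, 0 < C ∧ ∀ n d w M S : ℕ, 1 ≤ n → 1 ≤ d →
      C * (√(n : ℝ) + d * Real.log n) ≤ w → w ≤ n → n * 2 ^ w ≤ M →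
      ∀ R : RandCircuit (Fin M × Fin n × Bool), R.Bounded d S →
      ∀ p : ℝ, 0 < p → p ≤ 1 →
      (∀ x, WidthLe x w → UniqueModel x → HasModel x → p ≤ R.acc x) →
      (∀ x, WidthLe x w → ¬ HasModel x → R.acc x ≤ p / 2) →
      p * (2 : ℝ) ^ ((1 - ε) * n) < S) ∧
    (∀ n M : ℕ, ∃ R : RandCircuit (Fin M × Fin n × Bool), R.Bounded 2 (M + 1) ∧
      ∀ x, (HasModel x → (1 / 2 : ℝ) ^ n ≤ R.acc x) ∧ (¬ HasModel x → R.acc x = 0)) := by
  constructor
  · intro ε hε
    obtain ⟨C, hC, h⟩ := cnf_gap ε hε
    refine ⟨C, hC, ?_⟩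
    intro n d w M S hn hd hw hwn hM R hR p hp0 hp1 hyes hno
    let _ := R.fin
    exact h n d w M S hn hd hw hwn hM R.prob R.nonneg R.total R.circ (fun ω => (hR ω).1)
      (fun ω => (hR ω).2) p hp0 hp1 (fun x hx hu hm => hyes x hx hu hm)
      (fun x hx hm => hno x hx hm)
  · intro n M
    refine ⟨{ Ω := Fin n → Bool
              fin := inferInstance
              prob := fun _ => (1 / 2 : ℝ) ^ n
              nonneg := fun _ => by positivity
              total := by
                rw [Finset.sum_const, Finset.card_univ, Fintype.card_fun, Fintype.card_bool,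
                  Fintype.card_fin, nsmul_eq_mul]
                push_cast
                rw [← mul_pow]
                norm_num
              circ := fun α => chk M α }, fun α => ⟨chk_depth α, le_refl _⟩, fun x => ⟨?_, ?_⟩⟩
    · rintro ⟨α, hα⟩
      show (1 / 2 : ℝ) ^ n ≤ ∑ ω : Fin n → Bool,
        (if (chk M ω).eval x = true then (1 / 2 : ℝ) ^ n else 0)
      refine le_trans ?_ (Finset.single_le_sum (f := fun ω : Fin n → Bool =>
        if (chk M ω).eval x = true then (1 / 2 : ℝ) ^ n else 0) (fun ω _ => ?_)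
        (Finset.mem_univ α))
      · rw [if_pos ((chk_eval α x).2 hα)]
      · show (0 : ℝ) ≤ (if (chk M ω).eval x = true then (1 / 2 : ℝ) ^ n else 0)
        split_ifs
        · positivity
        · exact le_refl _
    · intro hx
      show ∑ ω : Fin n → Bool, (if (chk M ω).eval x = true then (1 / 2 : ℝ) ^ n else 0) = 0
      apply Finset.sum_eq_zero
      intro ω _
      rw [if_neg]
      intro h
      exact hx ⟨ω, (chk_eval ω x).1 h⟩
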